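import Mathlib

open Finset

namespace Pool.Agent.Results.MP_78fb5d_an.NotConvex

/-- `μ` is a non-negative weak tiling measure for `E ⊆ ℤ_M`: `1_E * μ = 1`. -/
def IsWeakTiling {M : ℕ} [NeZero M] (E : Finset (ZMod M)) (μ : ZMod M → ℝ) : Prop :=
  (∀ x, 0 ≤ μ x) ∧ ∀ x, ∑ y, (if x - y ∈ E then (1 : ℝ) else 0) * μ y = 1

/-- `E ⊕ T = ℤ_M`: every `x` has exactly one representation `x = e + t`. -/
def IsTiling {M : ℕ} (E T : Finset (ZMod M)) : Prop :=
  ∀ x : ZMod M, ∃! p : ZMod M × ZMod M, p.1 ∈ E ∧ p.2 ∈ T ∧ x = p.1 + p.2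

/-- `μ` is a convex combination of counting measures of tiling complements of `E`. -/
def IsConvexCombination {M : ℕ} (E : Finset (ZMod M)) (μ : ZMod M → ℝ) : Prop :=
  ∃ (N : ℕ) (T : Fin N → Finset (ZMod M)) (c : Fin N → ℝ), (∀ k, IsTiling E (T k)) ∧
    (∀ k, 0 ≤ c k) ∧ ∑ k, c k = 1 ∧ ∀ x, μ x = ∑ k, c k * (if x ∈ T k then (1 : ℝ) else 0)

def E0 : Finset (ZMod 24) := {0, 2, 6, 20}

def S0 : Finset (ZMod 24) := {0, 1, 8, 9, 11, 13, 16, 21, 23}

/-- twice the measure -/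
def m2 (x : ZMod 24) : ℕ :=
  if x = 0 ∨ x = 8 ∨ x = 16 then 2
  else if x = 1 ∨ x = 9 ∨ x = 11 ∨ x = 13 ∨ x = 21 ∨ x = 23 then 1 else 0

lemma conv : ∀ x : ZMod 24, ∑ y, (if x - y ∈ E0 then m2 y else 0) = 2 := by decide +kernel

lemma supp : ∀ x : ZMod 24, x ∉ S0 → m2 x = 0 := by decide +kernel

lemma two_cand {T : Finset (ZMod 24)} (hT : T ⊆ S0) {x a b : ZMod 24} (hab : a ≠ b)
    (hS : ∀ t ∈ S0, x - t ∈ E0 → t = a ∨ t = b) (ha : x - a ∈ E0) (hb : x - b ∈ E0)
    (h : (T.filter (fun t => x - t ∈ E0)).card = 1) :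
    (a ∈ T ∨ b ∈ T) ∧ ¬ (a ∈ T ∧ b ∈ T) := by
  obtain ⟨t, ht⟩ := card_eq_one.mp h
  constructor
  · have h1 : t ∈ T.filter (fun t => x - t ∈ E0) := by rw [ht]; exact mem_singleton_self t
    rw [mem_filter] at h1
    rcases hS t (hT h1.1) h1.2 with rfl | rfl
    · exact Or.inl h1.1
    · exact Or.inr h1.1
  · rintro ⟨h1, h2⟩
    have h3 : a ∈ T.filter (fun t => x - t ∈ E0) := mem_filter.mpr ⟨h1, ha⟩
    have h4 : b ∈ T.filter (fun t => x - t ∈ E0) := mem_filter.mpr ⟨h2, hb⟩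
    rw [ht, mem_singleton] at h3 h4
    exact hab (h3.trans h4.symm)

lemma none (T : Finset (ZMod 24)) (hT : T ⊆ S0)
    (h : ∀ x : ZMod 24, (T.filter (fun t => x - t ∈ E0)).card = 1) : False := by
  have h1 := two_cand hT (x := 1) (a := 1) (b := 23) (by decide) (by decide) (by decide)
    (by decide) (h 1)
  have h2 := two_cand hT (x := 3) (a := 1) (b := 21) (by decide) (by decide) (by decide)
    (by decide) (h 3)
  have h3 := two_cand hT (x := 23) (a := 21) (b := 23) (by decide) (by decide) (by decide)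
    (by decide) (h 23)
  tauto

lemma tile0 : ∀ x : ZMod 24, ((({0, 1, 8, 9, 16, 17} : Finset (ZMod 24))).filter
    (fun t => x - t ∈ E0)).card = 1 := by decide +kernel

lemma tiling_iff {M : ℕ} (E T : Finset (ZMod M)) :
    IsTiling E T ↔ ∀ x : ZMod M, (T.filter (fun t => x - t ∈ E)).card = 1 := by
  constructor
  · intro h x
    obtain ⟨⟨e, t⟩, ⟨he, ht, hx⟩, huniq⟩ := h x
    rw [card_eq_one]
    refine ⟨t, ?_⟩
    ext t'
    rw [mem_filter, mem_singleton]
    constructor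
    · rintro ⟨h1, h2⟩
      have := huniq (x - t', t') ⟨h2, h1, by simp⟩
      exact congrArg Prod.snd this
    · rintro rfl
      refine ⟨ht, ?_⟩
      have : x - t' = e := by rw [hx]; simp
      rw [this]; exact he
  · intro h x
    obtain ⟨t, ht⟩ := card_eq_one.mp (h x)
    have h1 : t ∈ T.filter (fun t => x - t ∈ E) := by rw [ht]; exact mem_singleton_self t
    rw [mem_filter] at h1
    refine ⟨(x - t, t), ⟨h1.2, h1.1, by simp⟩, ?_⟩
    rintro ⟨e', t'⟩ ⟨h2, h3, h4⟩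
    simp only at h2 h3 h4
    have h5 : x - t' = e' := by rw [h4]; simp
    have h6 : t' ∈ T.filter (fun t => x - t ∈ E) := by
      rw [mem_filter]; exact ⟨h3, by rw [h5]; exact h2⟩
    rw [ht, mem_singleton] at h6
    subst h6
    rw [h5]

/-- There are `E ⊆ ℤ_24` that tiles `ℤ_24` and a non-negative weak tiling measure `μ` for `E` with
`μ(0) = 1` that is not a convex combination of counting measures of tiling complements. -/
theorem result : ∃ (E : Finset (ZMod 24)) (μ : ZMod 24 → ℝ),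
    IsWeakTiling E μ ∧ (0 ∈ E ∧ μ 0 = 1) ∧ (∃ T, IsTiling E T) ∧ ¬ IsConvexCombination E μ := by
  refine ⟨E0, fun x => (m2 x : ℝ) / 2, ⟨fun x => by positivity, ?_⟩, ⟨by decide, ?_⟩,
    ⟨_, (tiling_iff _ _).mpr tile0⟩, ?_⟩
  · intro x
    have h := conv x
    have h1 : ((∑ y, (if x - y ∈ E0 then m2 y else 0) : ℕ) : ℝ) = ((2 : ℕ) : ℝ) := by rw [h]
    push_cast at h1
    have h2 : ∑ y, (if x - y ∈ E0 then (1 : ℝ) else 0) * ((m2 y : ℝ) / 2) =
        (∑ y, (if x - y ∈ E0 then (m2 y : ℝ) else 0)) / 2 := by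
      rw [sum_div]
      apply sum_congr rfl
      intro y _
      split_ifs <;> ring
    rw [h2, h1]; norm_num
  · have : m2 0 = 2 := by decide
    show ((m2 0 : ℕ) : ℝ) / 2 = 1
    rw [this]; norm_num
  · rintro ⟨N, T, c, hT, hc, hsum, hμ⟩
    obtain ⟨k, hk⟩ : ∃ k, 0 < c k := by
      by_contra hcon
      push Not at hcon
      have : ∑ k, c k ≤ 0 := sum_nonpos (fun k _ => hcon k)
      linarith
    apply none (T k)
    · intro x hx
      by_contra hxS
      have h1 : ((m2 x : ℕ) : ℝ) / 2 = ∑ k, c k * (if x ∈ T k then (1 : ℝ) else 0) := hμ x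
      rw [supp x hxS] at h1
      have h2 : c k * (if x ∈ T k then (1 : ℝ) else 0) ≤
          ∑ k, c k * (if x ∈ T k then (1 : ℝ) else 0) :=
        single_le_sum (f := fun k => c k * (if x ∈ T k then (1 : ℝ) else 0))
          (fun i _ => mul_nonneg (hc i) (by split_ifs <;> norm_num)) (mem_univ k)
      rw [if_pos hx, ← h1] at h2
      norm_num at h2
      linarith
    · exact (tiling_iff _ _).mp (hT k)

end Pool.Agent.Results.MP_78fb5d_an.NotConvex
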